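import Pool.Agent.H380.BG.Stm
import Pool.Graph.R_seed8.W54.TW.EisPairs

/-!
# The Epstein zeta function as a Mellin transform of a theta function

Task S_EPS of project BG.
-/

set_option autoImplicit false

namespace Pool.Agent.H695.BG

open Complex MeasureTheory Filter Topology Set MatrixGroups CongruenceSubgroup
open UpperHalfPlane hiding I
open Pool.Agent.H380.BG
open scoped ENNReal Real

/-- coprime pairs -/
abbrev Cp : Type := {p : ℤ × ℤ // IsCoprime p.1 p.2 ∧ ((1 : ℕ) : ℤ) ∣ p.1}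

/-- nonzero pairs are multiples of coprime pairs -/
def mulMap (x : ℕ × Cp) : {p : ℤ × ℤ // p ≠ 0} :=
  ⟨((x.1 + 1 : ℤ) * x.2.1.1, (x.1 + 1 : ℤ) * x.2.1.2), by
    intro h
    have h1 := congrArg Prod.fst h
    have h2 := congrArg Prod.snd h
    have hN : (x.1 + 1 : ℤ) ≠ 0 := by omega
    have e1 : x.2.1.1 = 0 := by
      rcases mul_eq_zero.1 (show (x.1 + 1 : ℤ) * x.2.1.1 = 0 from h1) with h | h
      · exact absurd h hN
      · exact h
    have e2 : x.2.1.2 = 0 := by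
      rcases mul_eq_zero.1 (show (x.1 + 1 : ℤ) * x.2.1.2 = 0 from h2) with h | h
      · exact absurd h hN
      · exact h
    have hc := x.2.2.1
    rw [e1, e2] at hc
    obtain ⟨a, b, hab⟩ := hc
    simp at hab⟩

theorem mulMap_bij : Function.Bijective mulMap := by
  constructor
  · rintro ⟨N, ⟨⟨c, d⟩, hc, hc'⟩⟩ ⟨N', ⟨⟨c', d'⟩, hd, hd'⟩⟩ h
    have h0 := congrArg Subtype.val h
    have h1 : (N + 1 : ℤ) * c = (N' + 1 : ℤ) * c' := congrArg Prod.fst h0
    have h2 : (N + 1 : ℤ) * d = (N' + 1 : ℤ) * d' := congrArg Prod.snd h0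
    have hc1 : IsCoprime c d := hc
    have hd1 : IsCoprime c' d' := hd
    have hdv : ∀ (a b : ℕ) (x y x' y' : ℤ), IsCoprime x y → (a + 1 : ℤ) * x = (b + 1 : ℤ) * x' →
        (a + 1 : ℤ) * y = (b + 1 : ℤ) * y' → (b + 1 : ℤ) ∣ (a + 1 : ℤ) := by
      intro a b x y x' y' hxy e1 e2
      obtain ⟨u, v, huv⟩ := hxy
      refine ⟨u * x' + v * y', ?_⟩
      linear_combination (-(a + 1 : ℤ)) * huv + u * e1 + v * e2
    have g1 := hdv N N' c d c' d' hc1 h1 h2
    have g2 := hdv N' N c' d' c d hd1 h1.symm h2.symm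
    have hNN : (N + 1 : ℤ) = N' + 1 :=
      Int.dvd_antisymm (by omega) (by omega) g2 g1
    have hNN' : N = N' := by omega
    subst hNN'
    have hN : (N + 1 : ℤ) ≠ 0 := by omega
    have e1 : c = c' := mul_left_cancel₀ hN h1
    have e2 : d = d' := mul_left_cancel₀ hN h2
    subst e1 e2
    rfl
  · rintro ⟨⟨m, n⟩, hmn⟩
    have hg : 0 < Int.gcd m n := by
      rw [Int.gcd_pos_iff]
      by_contra hcon
      push Not at hcon
      apply hmn
      rw [hcon.1, hcon.2]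
      rfl
    obtain ⟨c, d, hcd, hm, hn⟩ := Int.exists_gcd_one hg
    refine ⟨⟨Int.gcd m n - 1, ⟨⟨c, d⟩, Int.isCoprime_iff_gcd_eq_one.2 hcd, ?_⟩⟩, ?_⟩
    · simp
    · apply Subtype.ext
      have hcast : ((Int.gcd m n - 1 : ℕ) : ℤ) + 1 = Int.gcd m n := by omega
      show (((Int.gcd m n - 1 : ℕ) + 1 : ℤ) * c, ((Int.gcd m n - 1 : ℕ) + 1 : ℤ) * d) = (m, n)
      rw [hcast]
      refine Prod.ext ?_ ?_
      · show (Int.gcd m n : ℤ) * c = m
        rw [mul_comm]
        exact hm.symm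
      · show (Int.gcd m n : ℤ) * d = n
        rw [mul_comm]
        exact hn.symm

/-- the quadratic form -/
noncomputable def Qf (z : ℍ) (m n : ℤ) : ℝ := ‖(m : ℂ) * (z : ℂ) + (n : ℂ)‖ ^ 2 / z.im

theorem Qf_pos (z : ℍ) (m n : ℤ) (h : (m, n) ≠ 0) : 0 < Qf z m n := by
  unfold Qf
  have hz := z.im_pos
  apply div_pos _ hz
  have : (m : ℂ) * (z : ℂ) + (n : ℂ) ≠ 0 := by
    intro h0
    have him := congrArg Complex.im h0
    simp only [Complex.add_im, Complex.mul_im, Complex.intCast_re, Complex.intCast_im, zero_mul,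
      add_zero, Complex.zero_im, UpperHalfPlane.coe_im] at him
    have hm : m = 0 := by
      rcases mul_eq_zero.1 him with h1 | h1
      · exact_mod_cast h1
      · exact absurd h1 hz.ne'
    rw [hm] at h0
    simp at h0
    apply h
    rw [hm, h0]
    rfl
  positivity

theorem Qf_mul (z : ℍ) (N : ℕ) (c d : ℤ) :
    Qf z ((N + 1 : ℤ) * c) ((N + 1 : ℤ) * d) = ((N : ℝ) + 1) ^ 2 * Qf z c d := by
  unfold Qf
  have e : (((N + 1 : ℤ) * c : ℤ) : ℂ) * (z : ℂ) + (((N + 1 : ℤ) * d : ℤ) : ℂ) =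
      (((N : ℝ) + 1 : ℝ) : ℂ) * ((c : ℂ) * (z : ℂ) + (d : ℂ)) := by
    push_cast
    ring
  rw [e, norm_mul, mul_pow, Complex.norm_real, Real.norm_eq_abs, sq_abs]
  ring

/-- the Gamma integral -/
theorem gamma_int {s q : ℝ} (hs : 0 < s) (hq : 0 < q) :
    ∫⁻ t in Ioi (0 : ℝ), ENNReal.ofReal (t ^ (s - 1)) * ENNReal.ofReal (Real.exp (-(π * t * q))) =
      ENNReal.ofReal (Real.Gamma s / π ^ s) * ENNReal.ofReal (q ^ (-s)) := by
  have hpq : 0 < π * q := by positivity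
  have h1 := Real.integral_rpow_mul_exp_neg_mul_Ioi hs hpq
  have hG := Real.Gamma_pos_of_pos hs
  have hint : IntegrableOn (fun t : ℝ => t ^ (s - 1) * Real.exp (-(π * q * t))) (Ioi 0) := by
    by_contra hcon
    rw [integral_undef hcon] at h1
    have : 0 < (1 / (π * q)) ^ s * Real.Gamma s := by positivity
    linarith
  have h2 : ∫⁻ t in Ioi (0 : ℝ), ENNReal.ofReal (t ^ (s - 1)) *
      ENNReal.ofReal (Real.exp (-(π * t * q))) =
      ∫⁻ t in Ioi (0 : ℝ), ENNReal.ofReal (t ^ (s - 1) * Real.exp (-(π * q * t))) := by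
    refine setLIntegral_congr_fun measurableSet_Ioi fun t ht => ?_
    have ht0 : (0 : ℝ) < t := ht
    rw [← ENNReal.ofReal_mul (by positivity)]
    congr 3
    ring
  rw [h2, ← ofReal_integral_eq_lintegral_ofReal hint, h1, ← ENNReal.ofReal_mul (by positivity)]
  · congr 1
    rw [Real.rpow_neg hq.le, one_div, Real.inv_rpow hpq.le, Real.mul_rpow Real.pi_pos.le hq.le]
    field_simp
  · filter_upwards [ae_restrict_mem measurableSet_Ioi] with t ht
    have ht0 : (0 : ℝ) < t := ht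
    positivity

theorem t_EPS : S_EPS := by
  intro z s hs
  have hs0 : 0 < s := by linarith
  unfold th1
  have e1 : ∫⁻ t in Ioi (0 : ℝ), ENNReal.ofReal (t ^ (s - 1)) *
      ∑' p : {p : ℤ × ℤ // p ≠ 0},
        ENNReal.ofReal (Real.exp (-(π * t * (‖(p.1.1 : ℂ) * (z : ℂ) + (p.1.2 : ℂ)‖ ^ 2 / z.im)))) =
      ∑' p : {p : ℤ × ℤ // p ≠ 0}, ∫⁻ t in Ioi (0 : ℝ), ENNReal.ofReal (t ^ (s - 1)) *
        ENNReal.ofReal (Real.exp (-(π * t * Qf z p.1.1 p.1.2))) := by
    rw [← lintegral_tsum]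
    · refine lintegral_congr fun t => ?_
      rw [ENNReal.tsum_mul_left]
      rfl
    · intro p
      apply Measurable.aemeasurable
      have m1 : Measurable (fun t : ℝ => ENNReal.ofReal (t ^ (s - 1))) :=
        (measurable_id.pow_const (s - 1)).ennreal_ofReal
      have m2 : Measurable (fun t : ℝ => ENNReal.ofReal (Real.exp (-(π * t * Qf z p.1.1 p.1.2)))) := by
        apply Measurable.ennreal_ofReal
        apply Real.measurable_exp.comp
        fun_prop
      exact m1.mul m2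
  rw [e1]
  have e2 : ∀ p : {p : ℤ × ℤ // p ≠ 0}, ∫⁻ t in Ioi (0 : ℝ), ENNReal.ofReal (t ^ (s - 1)) *
      ENNReal.ofReal (Real.exp (-(π * t * Qf z p.1.1 p.1.2))) =
      ENNReal.ofReal (Real.Gamma s / π ^ s) * ENNReal.ofReal ((Qf z p.1.1 p.1.2) ^ (-s)) :=
    fun p => gamma_int hs0 (Qf_pos z _ _ p.2)
  rw [tsum_congr e2, ENNReal.tsum_mul_left, mul_assoc]
  congr 1
  rw [← (Equiv.ofBijective mulMap mulMap_bij).tsum_eq
    (fun p : {p : ℤ × ℤ // p ≠ 0} => ENNReal.ofReal ((Qf z p.1.1 p.1.2) ^ (-s))), ENNReal.tsum_prod',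
    zs, ← ENNReal.tsum_mul_right]
  refine tsum_congr fun N => ?_
  have hE : W388.EisG 1 s z = ∑' p : Cp, ENNReal.ofReal ((Qf z p.1.1 p.1.2) ^ (-s)) := by
    rw [W54.TW.t_eispairs 1 s z]
    refine tsum_congr fun p => ?_
    congr 1
    have hne : (p.1.1, p.1.2) ≠ (0 : ℤ × ℤ) := by
      intro h
      have h1 : p.1.1 = 0 := congrArg Prod.fst h
      have h2 : p.1.2 = 0 := congrArg Prod.snd h
      obtain ⟨a, b, hab⟩ := p.2.1
      rw [h1, h2] at hab
      simp at hab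
    have hQ := Qf_pos z _ _ hne
    rw [Real.rpow_neg hQ.le, ← Real.inv_rpow hQ.le]
    congr 1
    unfold Qf
    rw [inv_div]
  rw [hE, ← ENNReal.tsum_mul_left]
  refine tsum_congr fun p => ?_
  have hne : (p.1.1, p.1.2) ≠ (0 : ℤ × ℤ) := by
    intro h
    have h1 : p.1.1 = 0 := congrArg Prod.fst h
    have h2 : p.1.2 = 0 := congrArg Prod.snd h
    obtain ⟨a, b, hab⟩ := p.2.1
    rw [h1, h2] at hab
    simp at hab
  have hQ := Qf_pos z _ _ hne
  show ENNReal.ofReal ((Qf z ((N + 1 : ℤ) * p.1.1) ((N + 1 : ℤ) * p.1.2)) ^ (-s)) = _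
  rw [Qf_mul, ← ENNReal.ofReal_mul (by positivity), Real.mul_rpow (by positivity) hQ.le]
  congr 2
  rw [← Real.rpow_natCast, ← Real.rpow_mul (by positivity)]
  congr 1
  push_cast
  ring

end Pool.Agent.H695.BG
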